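import Pool.Agent.R882.ZD

/-!
Relations with the powers of distinct elements, and the derivative of the minimal polynomial.
-/

set_option autoImplicit false
set_option linter.overlappingInstances false
set_option linter.unusedSectionVars false
set_option linter.unusedDecidableInType false
set_option linter.unusedFintypeInType false
set_option maxHeartbeats 4000000
set_option synthInstance.maxHeartbeats 400000

open Module

namespace Pool.Agent.T6.H17.BC

section

variable {Ω : Type} [Field Ω] {T : Type} [Fintype T]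

/-- the sum with a polynomial -/
theorem poly_sum {u v : T → Ω} {k : ℕ} (h : ∀ j < k, ∑ τ, u τ ^ j * v τ = 0)
    {p : Polynomial Ω} (hp : p.natDegree < k) : ∑ τ, p.eval (u τ) * v τ = 0 := by
  have h1 : ∀ τ, p.eval (u τ) * v τ =
      ∑ j ∈ Finset.range (p.natDegree + 1), p.coeff j * (u τ ^ j * v τ) := by
    intro τ
    rw [Polynomial.eval_eq_sum_range, Finset.sum_mul]
    refine Finset.sum_congr rfl fun j _ => ?_
    ring
  rw [Finset.sum_congr rfl fun τ _ => h1 τ, Finset.sum_comm]
  refine Finset.sum_eq_zero fun j hj => ?_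
  rw [← Finset.mul_sum, h j (by
    rw [Finset.mem_range] at hj
    omega), mul_zero]

theorem deg_prod (Q : Finset T) (u : T → Ω) :
    (∏ τ ∈ Q, (Polynomial.X - Polynomial.C (u τ))).natDegree = Q.card := by
  rw [Polynomial.natDegree_prod_of_monic _ _ fun τ _ => Polynomial.monic_X_sub_C _]
  simp

theorem eval_prod (Q : Finset T) (u : T → Ω) (a : Ω) :
    (∏ τ ∈ Q, (Polynomial.X - Polynomial.C (u τ))).eval a = ∏ τ ∈ Q, (a - u τ) := by
  rw [Polynomial.eval_prod]
  refine Finset.prod_congr rfl fun τ _ => ?_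
  rw [Polynomial.eval_sub, Polynomial.eval_X, Polynomial.eval_C]

/-- a relation with few terms -/
theorem few {u v : T → Ω} (hu : Function.Injective u) {k : ℕ}
    (h : ∀ j < k, ∑ τ, u τ ^ j * v τ = 0) [DecidablePred fun τ => v τ ≠ 0]
    (hk : (Finset.univ.filter fun τ => v τ ≠ 0).card ≤ k) (τ : T) : v τ = 0 := by
  classical
  by_contra h0
  obtain ⟨Q, hQ⟩ : ∃ Q : Finset T, Q = (Finset.univ.filter fun τ => v τ ≠ 0).erase τ := ⟨_, rfl⟩
  have hτ : τ ∈ Finset.univ.filter fun τ => v τ ≠ 0 :=
    Finset.mem_filter.2 ⟨Finset.mem_univ _, h0⟩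
  have hQc : Q.card + 1 ≤ k := by
    rw [hQ, Finset.card_erase_of_mem hτ]
    have := Finset.card_pos.2 ⟨τ, hτ⟩
    omega
  have hsum := poly_sum h (p := ∏ τ ∈ Q, (Polynomial.X - Polynomial.C (u τ))) (by
    rw [deg_prod]
    omega)
  rw [Finset.sum_eq_single τ (fun τ' _ hτ' => ?_) (fun hn => absurd (Finset.mem_univ _) hn)]
    at hsum
  · rcases mul_eq_zero.1 hsum with h2 | h2
    · rw [eval_prod, Finset.prod_eq_zero_iff] at h2
      obtain ⟨τ', hτ', h3⟩ := h2
      rw [hQ] at hτ'
      exact Finset.ne_of_mem_erase hτ' (hu (sub_eq_zero.1 h3)).symm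
    · exact h0 h2
  · by_cases hv : v τ' = 0
    · rw [hv, mul_zero]
    · have h3 : τ' ∈ Q := by
        rw [hQ]
        exact Finset.mem_erase.2 ⟨hτ', Finset.mem_filter.2 ⟨Finset.mem_univ _, hv⟩⟩
      rw [eval_prod, Finset.prod_eq_zero h3 (sub_self _), zero_mul]

/-- the solutions of the relations -/
theorem vander_eq [DecidableEq T] {u v : T → Ω}
    (h : ∀ j, j + 1 < Fintype.card T → ∑ τ, u τ ^ j * v τ = 0) (τ0 τ1 : T) :
    v τ0 * ∏ τ ∈ Finset.univ.erase τ0, (u τ0 - u τ) =
      v τ1 * ∏ τ ∈ Finset.univ.erase τ1, (u τ1 - u τ) := by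
  by_cases h01 : τ1 = τ0
  · rw [h01]
  · obtain ⟨Q, hQ⟩ : ∃ Q : Finset T, Q = (Finset.univ.erase τ0).erase τ1 := ⟨_, rfl⟩
    have hm1 : τ1 ∈ Finset.univ.erase τ0 := Finset.mem_erase.2 ⟨h01, Finset.mem_univ _⟩
    have hm0 : τ0 ∈ Finset.univ.erase τ1 := Finset.mem_erase.2 ⟨Ne.symm h01, Finset.mem_univ _⟩
    have hQ' : Q = (Finset.univ.erase τ1).erase τ0 := by
      rw [hQ]
      exact Finset.erase_right_comm
    have hQc : Q.card + 2 = Fintype.card T := by
      rw [hQ, Finset.card_erase_of_mem hm1, Finset.card_erase_of_mem (Finset.mem_univ _),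
        Finset.card_univ]
      have h2 : 1 < Fintype.card T := Fintype.one_lt_card_iff.2 ⟨τ1, τ0, h01⟩
      omega
    have hsum := poly_sum (k := Fintype.card T - 1) (fun j hj => h j (by omega))
      (p := ∏ τ ∈ Q, (Polynomial.X - Polynomial.C (u τ))) (by
        rw [deg_prod]
        omega)
    rw [← Finset.add_sum_erase _ _ (Finset.mem_univ τ0), ← Finset.add_sum_erase _ _ hm1,
      Finset.sum_eq_zero (s := (Finset.univ.erase τ0).erase τ1) (fun τ hτ => ?_), add_zero,
      eval_prod, eval_prod] at hsum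
    · rw [← Finset.mul_prod_erase _ _ hm1, ← Finset.mul_prod_erase _ _ hm0, ← hQ, ← hQ']
      linear_combination (u τ0 - u τ1) * hsum
    · rw [← hQ] at hτ
      rw [eval_prod, Finset.prod_eq_zero hτ (sub_self _), zero_mul]

end

section

variable {E K Ω : Type} [Field E] [Field K] [Field Ω] [Algebra E K] [Algebra E Ω]
  [FiniteDimensional E K] [Algebra.IsSeparable E K] [IsAlgClosed Ω]

theorem inj_of_gen {y : K} (hy : IntermediateField.adjoin E {y} = ⊤) :
    Function.Injective (fun ρ : K →ₐ[E] Ω => ρ y) := by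
  intro ρ1 ρ2 h12
  apply AlgHom.ext
  intro w
  have hw : w ∈ IntermediateField.adjoin E {y} := by
    rw [hy]
    trivial
  induction hw using IntermediateField.adjoin_induction with
  | mem e he =>
    rw [Set.mem_singleton_iff.1 he]
    exact h12
  | algebraMap c => rw [AlgHom.commutes, AlgHom.commutes]
  | add a b _ _ ha hb => rw [map_add, map_add, ha, hb]
  | inv a _ ha => rw [map_inv₀, map_inv₀, ha]
  | mul a b _ _ ha hb => rw [map_mul, map_mul, ha, hb]

/-- the minimal polynomial of a generator is the product over all embeddings -/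
theorem map_minpoly {y : K} (hy : IntermediateField.adjoin E {y} = ⊤) :
    (minpoly E y).map (algebraMap E Ω) =
      ∏ ρ : K →ₐ[E] Ω, (Polynomial.X - Polynomial.C (ρ y)) := by
  classical
  have hint : IsIntegral E y := Algebra.IsIntegral.isIntegral y
  have hmon := minpoly.monic hint
  refine (Polynomial.eq_of_monic_of_dvd_of_natDegree_le
    (Polynomial.monic_prod_of_monic _ _ fun ρ _ => Polynomial.monic_X_sub_C _)
    (hmon.map _) ?_ ?_)
  · refine Finset.prod_dvd_of_coprime ?_ fun ρ _ => ?_
    · intro ρ1 _ ρ2 _ h12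
      exact Polynomial.isCoprime_X_sub_C_of_isUnit_sub
        (sub_ne_zero.2 fun h => h12 (inj_of_gen hy h)).isUnit
    · rw [Polynomial.dvd_iff_isRoot, Polynomial.IsRoot, Polynomial.eval_map_algebraMap,
        Polynomial.aeval_algHom_apply, minpoly.aeval, map_zero]
  · rw [deg_prod, Polynomial.natDegree_map, Finset.card_univ, AlgHom.card,
      ← IntermediateField.adjoin.finrank hint, hy, IntermediateField.finrank_top']

/-- the derivative of the minimal polynomial at a generator -/
theorem deriv_minpoly [DecidableEq (K →ₐ[E] Ω)] {y : K}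
    (hy : IntermediateField.adjoin E {y} = ⊤) (ρ : K →ₐ[E] Ω) :
    ρ (Polynomial.aeval y (Polynomial.derivative (minpoly E y))) =
      ∏ τ ∈ Finset.univ.erase ρ, (ρ y - τ y) := by
  rw [← Polynomial.aeval_algHom_apply, ← Polynomial.eval_map_algebraMap,
    ← Polynomial.derivative_map, map_minpoly hy, Polynomial.derivative_prod_finset,
    Polynomial.eval_finsetSum, Finset.sum_eq_single ρ (fun τ _ hτ => ?_)
      (fun hn => absurd (Finset.mem_univ _) hn)]
  · rw [Polynomial.eval_mul, eval_prod, Polynomial.derivative_X_sub_C, Polynomial.eval_one,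
      mul_one]
  · rw [Polynomial.eval_mul, eval_prod, Finset.prod_eq_zero
      (Finset.mem_erase.2 ⟨Ne.symm hτ, Finset.mem_univ _⟩) (sub_self _), zero_mul]

end

end Pool.Agent.T6.H17.BC
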