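import Pool.Agent.T6.H17.BC.Quad

/-!
Families of zero-cycles with null trace on coverings, with forms for the fibres of each size.
-/

set_option autoImplicit false
set_option linter.overlappingInstances false
set_option linter.unusedSectionVars false
set_option linter.unusedDecidableInType false
set_option linter.unusedFintypeInType false
set_option maxHeartbeats 4000000
set_option synthInstance.maxHeartbeats 400000

open FF Module Pool.Agent Pool.Agent.W602.GT
open Pool.Agent.R882.HT (GenusZero)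
open Pool.Agent.R882.ZC (NullTrace pullback agree relE step)

namespace Pool.Agent.T6.H17.BC

section

variable {K Ω : Type} [Field K] [Algebra ℂ K] [Field Ω] [Algebra ℂ Ω] {n : ℕ}

/-- There is a form, not zero, whose products with the `y ^ j`, `j < k`, and with the monomials of
degree at most `M` in the `x l` are regular. -/
def Level (n : ℕ) {N : ℕ} (x : Fin N → K) (y : K) (k M : ℕ) : Prop :=
  ∃ ω : (Fin n → Derivation ℂ K K) → K, IsPluri 1 ω ∧
    (∀ Z : Fin n → K, IsTranscendenceBasis ℂ Z → ∀ D0 : Fin n → Derivation ℂ K K,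
      (∀ i j, D0 i (Z j) = if i = j then 1 else 0) → ω D0 ≠ 0) ∧
    ∀ j < k, ∀ a : Fin N → ℕ, ∑ l, a l ≤ M → ∀ P : Place ℂ K, Divisorial n P →
      RegAt P (fun D => (∏ l, x l ^ a l) * (y ^ j * ω D))

/-- The fibres of the family are large. -/
theorem fibres_full (hΩ : Algebra.trdeg ℂ Ω = (n : ℕ)) [Algebra.EssFiniteType ℂ K]
    (hK : Algebra.trdeg ℂ K = (n : ℕ)) {N b : ℕ} {x : Fin N → K}
    [FiniteDimensional (IntermediateField.adjoin ℂ (Set.range x)) K] {y : K}
    (hy : IntermediateField.adjoin (IntermediateField.adjoin ℂ (Set.range x)) {y} = ⊤)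
    {c : (K →ₐ[ℂ] Ω) →₀ ℤ} (hc : NullTrace n c) [DecidableEq (Fin N → Ω)]
    (H : ∀ k, 1 ≤ k → k < b → ∃ M, Level n x y k M ∧
      ((c.support.image fun σ l => σ (x l)).filter fun q =>
        k ≤ (c.support.filter fun ρ => (fun l => ρ (x l)) = q).card).card ≤ M + 1)
    (k : ℕ) (hk : k < b) (σ : K →ₐ[ℂ] Ω) (hσ : c σ ≠ 0) :
    k < (c.support.filter fun ρ => (fun l => ρ (x l)) = fun l => σ (x l)).card := by
  classical
  induction k generalizing σ with
  | zero =>
    exact Finset.card_pos.2 ⟨σ, Finset.mem_filter.2 ⟨Finsupp.mem_support_iff.2 hσ, rfl⟩⟩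
  | succ k ih =>
    obtain ⟨M, ⟨ω, hω, hne, hreg⟩, hM⟩ := H (k + 1) (by omega) hk
    refine grow hΩ hK hy hω hne hreg hc ?_ hσ
    rw [Finset.filter_true_of_mem] at hM
    · exact hM
    · intro q hq
      obtain ⟨ρ, hρ, rfl⟩ := Finset.mem_image.1 hq
      exact ih (by omega) ρ (Finsupp.mem_support_iff.1 hρ)

/-- **The coefficients are constant on the fibres.** -/
theorem const_fibres [IsAlgClosed Ω] (hΩ : Algebra.trdeg ℂ Ω = (n : ℕ))
    [Algebra.EssFiniteType ℂ K]
    (hK : Algebra.trdeg ℂ K = (n : ℕ)) {N : ℕ} {x : Fin N → K}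
    [FiniteDimensional (IntermediateField.adjoin ℂ (Set.range x)) K] {y : K}
    (hy : IntermediateField.adjoin (IntermediateField.adjoin ℂ (Set.range x)) {y} = ⊤)
    {c : (K →ₐ[ℂ] Ω) →₀ ℤ} (hc : NullTrace n c)
    (alt : GenusZero (IntermediateField.adjoin ℂ (Set.range x)) n ∨ (∀ σ, 0 ≤ c σ) ∨
      ∀ F : IntermediateField (IntermediateField.adjoin ℂ (Set.range x)) K,
        Module.finrank (IntermediateField.adjoin ℂ (Set.range x)) F ≠ 2)
    [DecidableEq (Fin N → Ω)]
    (H : ∀ k, 1 ≤ k → k < Module.finrank (IntermediateField.adjoin ℂ (Set.range x)) K →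
      ∃ M, Level n x y k M ∧
      ((c.support.image fun σ l => σ (x l)).filter fun q =>
        k ≤ (c.support.filter fun ρ => (fun l => ρ (x l)) = q).card).card ≤ M + 1)
    {σ τ : K →ₐ[ℂ] Ω} (h : ∀ l, σ (x l) = τ (x l)) : c σ = c τ := by
  classical
  obtain ⟨b, hb⟩ : ∃ b, b = Module.finrank (IntermediateField.adjoin ℂ (Set.range x)) K :=
    ⟨_, rfl⟩
  have hb0 : 0 < b := by
    rw [hb]
    exact Module.finrank_pos
  rcases Nat.lt_or_ge 1 b with hb1 | hb1
  · obtain ⟨M, ⟨ω, hω, hne, hreg⟩, hM⟩ := H (b - 1) (by omega) (by omega)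
    have hcard : (c.support.image fun σ l => σ (x l)).card ≤ M + 1 := by
      rw [Finset.filter_true_of_mem] at hM
      · exact hM
      · intro q hq
        obtain ⟨ρ, hρ, rfl⟩ := Finset.mem_image.1 hq
        have h1 := fibres_full hΩ hK hy hc H (b - 2) (by omega) ρ (Finsupp.mem_support_iff.1 hρ)
        omega
    have hreg' : ∀ j, j + 1 < Module.finrank (IntermediateField.adjoin ℂ (Set.range x)) K →
        ∀ a : Fin N → ℕ, ∑ l, a l ≤ M → ∀ P : Place ℂ K, Divisorial n P →
        RegAt P (fun D => (∏ l, x l ^ a l) * (y ^ j * ω D)) := fun j hj =>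
      hreg j (by omega)
    rcases alt with hg | heff | hnq
    · exact step hΩ hK hy hg hω hne hreg' hc hcard h
    · have h1 := step_abs hΩ hK hy hω hne hreg' hc hcard h
      rwa [abs_of_nonneg (heff σ), abs_of_nonneg (heff τ)] at h1
    · exact step_nq hΩ hK hy hω hne hreg' hc hnq hcard h
  · have hb2 : Module.finrank (IntermediateField.adjoin ℂ (Set.range x)) K = 1 := by omega
    have htop : IntermediateField.adjoin ℂ (Set.range x) = ⊤ := by
      exact IntermediateField.finrank_eq_one_iff_eq_top.1 hb2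
    have h1 : σ = τ := by
      ext w
      exact agree h (by rw [htop]; trivial)
    rw [h1]

end

end Pool.Agent.T6.H17.BC
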