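import Pool.Agent.T6.H17.BC.Abs

/-!
Families of zero-cycles with null trace: the signs of the coefficients, and the fibres.
-/

set_option autoImplicit false
set_option linter.overlappingInstances false
set_option linter.unusedSectionVars false
set_option linter.unusedDecidableInType false
set_option linter.unusedFintypeInType false
set_option maxHeartbeats 4000000
set_option synthInstance.maxHeartbeats 400000

open FF Module Pool.Agent Pool.Agent.W602.GT
open Pool.Agent.R882.ZC (NullTrace pullback agree relE)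

namespace Pool.Agent.T6.H17.BC

section

variable {E K Ω : Type} [Field E] [Field K] [Field Ω] [Algebra E K] [Algebra E Ω]
  [FiniteDimensional E K] [IsAlgClosed Ω]

/-- a sign change of the coefficients gives a quadratic extension -/
theorem quad_of [CharZero E] {y : K} (hy : IntermediateField.adjoin E {y} = ⊤)
    {g : K} (hg : g ≠ 0) (c : (K →ₐ[E] Ω) → ℤ)
    (hrel : ∀ j, j + 1 < Module.finrank E K → ∑ ρ, (c ρ : Ω) * (ρ y ^ j * ρ g) = 0)
    (habs : ∀ ρ ρ', |c ρ| = |c ρ'|) {σ τ : K →ₐ[E] Ω} (hστ : c σ ≠ c τ) :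
    ∃ F : IntermediateField E K, Module.finrank E F = 2 := by
  classical
  have hcharΩ : CharZero Ω := charZero_of_injective_algebraMap (algebraMap E Ω).injective
  have hcardT : Fintype.card (K →ₐ[E] Ω) = Module.finrank E K := AlgHom.card _ _ _
  obtain ⟨D, hD⟩ : ∃ D : K, D = Polynomial.aeval y (Polynomial.derivative (minpoly E y)) :=
    ⟨_, rfl⟩
  have hDρ : ∀ ρ : K →ₐ[E] Ω, ρ D = ∏ τ ∈ Finset.univ.erase ρ, (ρ y - τ y) := by
    intro ρ
    rw [hD, deriv_minpoly hy]
  have hD0 : D ≠ 0 := by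
    intro h0
    have h1 := hDρ σ
    rw [h0, map_zero] at h1
    obtain ⟨τ', hτ', h3⟩ := Finset.prod_eq_zero_iff.1 h1.symm
    exact Finset.ne_of_mem_erase hτ' (inj_of_gen hy (sub_eq_zero.1 h3)).symm
  obtain ⟨g0, hg0⟩ : ∃ g0 : K, g0 = g * D := ⟨_, rfl⟩
  have hg0n : g0 ≠ 0 := by
    rw [hg0]
    exact mul_ne_zero hg hD0
  have key : ∀ ρ ρ' : K →ₐ[E] Ω, (c ρ : Ω) * ρ g0 = (c ρ' : Ω) * ρ' g0 := by
    intro ρ ρ'
    have h1 := vander_eq (u := fun ρ : K →ₐ[E] Ω => ρ y) (v := fun ρ => (c ρ : Ω) * ρ g)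
      (fun j hj => by
        rw [hcardT] at hj
        rw [← hrel j hj]
        refine Finset.sum_congr rfl fun ρ _ => ?_
        ring) ρ ρ'
    rw [← hDρ, ← hDρ] at h1
    rw [hg0, map_mul, map_mul]
    linear_combination h1
  have hcσ : c σ ≠ 0 := by
    intro h0
    have h1 := habs σ τ
    rw [h0, abs_zero] at h1
    exact hστ (by rw [h0, abs_eq_zero.1 h1.symm])
  have hcτ : c τ = -c σ := by
    rcases abs_eq_abs.1 (habs τ σ) with h | h
    · exact absurd h.symm hστ
    · exact h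
  have hcσΩ : (c σ : Ω) ≠ 0 := Int.cast_ne_zero.2 hcσ
  have hsq : ∀ ρ : K →ₐ[E] Ω, (c ρ : Ω) ^ 2 = (c σ : Ω) ^ 2 := by
    intro ρ
    have h1 : c ρ ^ 2 = c σ ^ 2 := by
      rw [← sq_abs (c ρ), habs ρ σ, sq_abs]
    exact_mod_cast h1
  have hρ : ∀ ρ : K →ₐ[E] Ω, ρ (g0 ^ 2) = σ (g0 ^ 2) := by
    intro ρ
    have h1 := key ρ σ
    have h2 : (c σ : Ω) ^ 2 * ρ (g0 ^ 2) = (c σ : Ω) ^ 2 * σ (g0 ^ 2) := by
      rw [map_pow, map_pow]
      linear_combination ((c ρ : Ω) * ρ g0 + (c σ : Ω) * σ g0) * h1 - ρ g0 ^ 2 * hsq ρ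
    exact mul_left_cancel₀ (pow_ne_zero 2 hcσΩ) h2
  have hb : (Module.finrank E K : E) ≠ 0 := Nat.cast_ne_zero.2 Module.finrank_pos.ne'
  obtain ⟨e, he⟩ : ∃ e : E, e = Algebra.trace E K (g0 ^ 2) / (Module.finrank E K : E) := ⟨_, rfl⟩
  have hge : g0 ^ 2 = algebraMap E K e := by
    apply σ.injective
    change σ (g0 ^ 2) = σ (algebraMap E K e)
    rw [AlgHom.commutes, he, map_div₀, trace_eq_sum_embeddings Ω,
      Finset.sum_congr rfl fun ρ _ => hρ ρ, Finset.sum_const, Finset.card_univ, hcardT,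
      nsmul_eq_mul, map_natCast, mul_div_cancel_left₀]
    exact Nat.cast_ne_zero.2 Module.finrank_pos.ne'
  have hnot : g0 ∉ (⊥ : IntermediateField E K) := by
    intro hmem
    obtain ⟨e', he'⟩ := IntermediateField.mem_bot.1 hmem
    have h1 := key σ τ
    have h2 : σ g0 = τ g0 := by rw [← he', AlgHom.commutes, AlgHom.commutes]
    rw [hcτ, ← h2] at h1
    have h3 : (2 : Ω) * ((c σ : Ω) * σ g0) = 0 := by
      push_cast at h1
      linear_combination h1
    rcases mul_eq_zero.1 h3 with h4 | h4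
    · exact two_ne_zero h4
    · rcases mul_eq_zero.1 h4 with h5 | h5
      · exact hcσΩ h5
      · exact hg0n ((map_eq_zero σ).1 h5)
  refine ⟨IntermediateField.adjoin E {g0}, ?_⟩
  have hint : IsIntegral E g0 := Algebra.IsIntegral.isIntegral g0
  have h1 : Module.finrank E (IntermediateField.adjoin E {g0}) = (minpoly E g0).natDegree :=
    IntermediateField.adjoin.finrank hint
  have h2 : Module.finrank E (IntermediateField.adjoin E {g0}) ≠ 1 := by
    intro h
    exact hnot (IntermediateField.finrank_adjoin_simple_eq_one_iff.1 h)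
  have h3 : (minpoly E g0).natDegree ≤ 2 := by
    have h4 : minpoly E g0 ∣ Polynomial.X ^ 2 - Polynomial.C e := by
      apply minpoly.dvd
      rw [map_sub, map_pow, Polynomial.aeval_X, Polynomial.aeval_C, hge, sub_self]
    have h5 := Polynomial.natDegree_le_of_dvd h4 (Polynomial.X_pow_sub_C_ne_zero two_pos e)
    rwa [Polynomial.natDegree_X_pow_sub_C] at h5
  have h4 : 0 < Module.finrank E (IntermediateField.adjoin E {g0}) := Module.finrank_pos
  omega

end

section

variable {K Ω : Type} [Field K] [Algebra ℂ K] [Field Ω] [Algebra ℂ Ω] {n : ℕ}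

/-- two embeddings over the same base point are embeddings over the base -/
theorem setup {N : ℕ} {x : Fin N → K} (σ : K →ₐ[ℂ] Ω) :
    ∃ (_ : Algebra (IntermediateField.adjoin ℂ (Set.range x)) Ω)
      (_ : IsScalarTower ℂ (IntermediateField.adjoin ℂ (Set.range x)) Ω),
      (∀ ρ : K →ₐ[ℂ] Ω, (∀ l, ρ (x l) = σ (x l)) →
        ∃ ρ' : K →ₐ[IntermediateField.adjoin ℂ (Set.range x)] Ω,
          ρ'.restrictScalars ℂ = ρ) ∧
      ∀ (ρ' : K →ₐ[IntermediateField.adjoin ℂ (Set.range x)] Ω) (l : Fin N),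
        ρ'.restrictScalars ℂ (x l) = σ (x l) := by
  let i1 : Algebra (IntermediateField.adjoin ℂ (Set.range x)) Ω :=
    (σ.toRingHom.comp (algebraMap (IntermediateField.adjoin ℂ (Set.range x)) K)).toAlgebra
  have hi1 : ∀ e : IntermediateField.adjoin ℂ (Set.range x),
      algebraMap (IntermediateField.adjoin ℂ (Set.range x)) Ω e = σ (e : K) := fun e => rfl
  have i2 : IsScalarTower ℂ (IntermediateField.adjoin ℂ (Set.range x)) Ω :=
    IsScalarTower.of_algebraMap_eq fun c => by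
      rw [hi1]
      exact (σ.commutes c).symm
  refine ⟨i1, i2, ?_, ?_⟩
  · intro ρ hρ
    exact ⟨{ ρ with commutes' := fun e => (agree hρ e.2).trans (hi1 e).symm }, rfl⟩
  · intro ρ' l
    exact ρ'.commutes ⟨x l, IntermediateField.subset_adjoin ℂ _ ⟨l, rfl⟩⟩

/-- **The step without quadratic extensions.** -/
theorem step_nq [IsAlgClosed Ω] (hΩ : Algebra.trdeg ℂ Ω = (n : ℕ)) [Algebra.EssFiniteType ℂ K]
    (hK : Algebra.trdeg ℂ K = (n : ℕ)) {N M : ℕ} {x : Fin N → K}
    [FiniteDimensional (IntermediateField.adjoin ℂ (Set.range x)) K] {y : K}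
    (hy : IntermediateField.adjoin (IntermediateField.adjoin ℂ (Set.range x)) {y} = ⊤)
    {ω : (Fin n → Derivation ℂ K K) → K} (hω : IsPluri 1 ω)
    (hne : ∀ Z : Fin n → K, IsTranscendenceBasis ℂ Z → ∀ D0 : Fin n → Derivation ℂ K K,
      (∀ i j, D0 i (Z j) = if i = j then 1 else 0) → ω D0 ≠ 0)
    (hreg : ∀ j, j + 1 < Module.finrank (IntermediateField.adjoin ℂ (Set.range x)) K →
      ∀ a : Fin N → ℕ, ∑ l, a l ≤ M → ∀ P : Place ℂ K, Divisorial n P →
        RegAt P (fun D => (∏ l, x l ^ a l) * (y ^ j * ω D)))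
    {c : (K →ₐ[ℂ] Ω) →₀ ℤ} (hc : NullTrace n c)
    (hnq : ∀ F : IntermediateField (IntermediateField.adjoin ℂ (Set.range x)) K,
      Module.finrank (IntermediateField.adjoin ℂ (Set.range x)) F ≠ 2)
    [DecidableEq (Fin N → Ω)]
    (hcard : (c.support.image fun σ l => σ (x l)).card ≤ M + 1)
    {σ τ : K →ₐ[ℂ] Ω} (h : ∀ l, σ (x l) = τ (x l)) : c σ = c τ := by
  classical
  by_contra hστ
  have hEn : Algebra.trdeg ℂ (IntermediateField.adjoin ℂ (Set.range x)) = (n : ℕ) :=
    Pool.Agent.Y184.NT.trdeg_below (K := K) hK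
  obtain ⟨z, E, hz, hE⟩ := Pool.Agent.Y172.exists_crd (k := ℂ)
    (K := IntermediateField.adjoin ℂ (Set.range x)) hEn
  choose E' hE' using fun i => Pool.Agent.Y172.exists_lift (k := ℂ)
    (K := IntermediateField.adjoin ℂ (Set.range x)) (L := K) hEn (E i)
  have hzK : IsTranscendenceBasis ℂ (fun j => algebraMap (IntermediateField.adjoin ℂ
      (Set.range x)) K (z j)) := hz.algebraMap_comp
  have hE'd := Pool.Agent.Y172.lift_dual hE hE'
  have hg : ω E' ≠ 0 := hne _ hzK E' hE'd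
  have hcE : CharZero (IntermediateField.adjoin ℂ (Set.range x)) :=
    charZero_of_injective_algebraMap (algebraMap ℂ _).injective
  obtain ⟨i1, i2, hT, hT'⟩ := setup (x := x) σ
  obtain ⟨σ', hσ'⟩ := hT σ fun _ => rfl
  obtain ⟨τ', hτ'⟩ := hT τ fun l => (h l).symm
  obtain ⟨F, hF⟩ := quad_of (Ω := Ω) hy hg (fun ρ' => c (ρ'.restrictScalars ℂ))
    (fun j hj => relE (C := Module.finrank (IntermediateField.adjoin ℂ (Set.range x)) K - 1) hΩ hω
      (fun j hj => hreg j (by omega)) hz hE'd hc hcard (by omega))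
    (fun ρ ρ' => step_abs hΩ hK hy hω hne hreg hc hcard fun l => by rw [hT', hT'])
    (σ := σ') (τ := τ') (by
      rw [hσ', hτ']
      exact hστ)
  exact hnq F hF

/-- **The growth of the fibres.** -/
theorem grow (hΩ : Algebra.trdeg ℂ Ω = (n : ℕ)) [Algebra.EssFiniteType ℂ K]
    (hK : Algebra.trdeg ℂ K = (n : ℕ)) {N M k : ℕ} {x : Fin N → K}
    [FiniteDimensional (IntermediateField.adjoin ℂ (Set.range x)) K] {y : K}
    (hy : IntermediateField.adjoin (IntermediateField.adjoin ℂ (Set.range x)) {y} = ⊤)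
    {ω : (Fin n → Derivation ℂ K K) → K} (hω : IsPluri 1 ω)
    (hne : ∀ Z : Fin n → K, IsTranscendenceBasis ℂ Z → ∀ D0 : Fin n → Derivation ℂ K K,
      (∀ i j, D0 i (Z j) = if i = j then 1 else 0) → ω D0 ≠ 0)
    (hreg : ∀ j < k, ∀ a : Fin N → ℕ, ∑ l, a l ≤ M → ∀ P : Place ℂ K, Divisorial n P →
        RegAt P (fun D => (∏ l, x l ^ a l) * (y ^ j * ω D)))
    {c : (K →ₐ[ℂ] Ω) →₀ ℤ} (hc : NullTrace n c)
    [DecidableEq (Fin N → Ω)]
    (hcard : (c.support.image fun σ l => σ (x l)).card ≤ M + 1)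
    {σ : K →ₐ[ℂ] Ω} (hσ : c σ ≠ 0) :
    k < (c.support.filter fun ρ => (fun l => ρ (x l)) = fun l => σ (x l)).card := by
  classical
  by_contra hcon
  push Not at hcon
  have hEn : Algebra.trdeg ℂ (IntermediateField.adjoin ℂ (Set.range x)) = (n : ℕ) :=
    Pool.Agent.Y184.NT.trdeg_below (K := K) hK
  obtain ⟨z, E, hz, hE⟩ := Pool.Agent.Y172.exists_crd (k := ℂ)
    (K := IntermediateField.adjoin ℂ (Set.range x)) hEn
  choose E' hE' using fun i => Pool.Agent.Y172.exists_lift (k := ℂ)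
    (K := IntermediateField.adjoin ℂ (Set.range x)) (L := K) hEn (E i)
  have hzK : IsTranscendenceBasis ℂ (fun j => algebraMap (IntermediateField.adjoin ℂ
      (Set.range x)) K (z j)) := hz.algebraMap_comp
  have hE'd := Pool.Agent.Y172.lift_dual hE hE'
  have hg : ω E' ≠ 0 := hne _ hzK E' hE'd
  have hcharΩ : CharZero Ω := charZero_of_injective_algebraMap (algebraMap ℂ Ω).injective
  obtain ⟨i1, i2, hT, hT'⟩ := setup (x := x) σ
  obtain ⟨σ', hσ'⟩ := hT σ fun _ => rfl
  have hinj : Function.Injective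
      (fun ρ' : K →ₐ[IntermediateField.adjoin ℂ (Set.range x)] Ω => ρ' y) := by
    intro ρ1 ρ2 h12
    apply AlgHom.ext
    intro w
    have hw : w ∈ IntermediateField.adjoin (IntermediateField.adjoin ℂ (Set.range x)) {y} := by
      rw [hy]
      trivial
    induction hw using IntermediateField.adjoin_induction with
    | mem e he =>
      rw [Set.mem_singleton_iff.1 he]
      exact h12
    | algebraMap c => rw [AlgHom.commutes, AlgHom.commutes]
    | add a b _ _ ha hb => rw [map_add, map_add, ha, hb]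
    | inv a _ ha => rw [map_inv₀, map_inv₀, ha]
    | mul a b _ _ ha hb => rw [map_mul, map_mul, ha, hb]
  have h1 := few hinj (v := fun ρ' : K →ₐ[IntermediateField.adjoin ℂ (Set.range x)] Ω =>
    (c (ρ'.restrictScalars ℂ) : Ω) * ρ' (ω E')) (k := k) (fun j hj => by
      have h2 := relE (C := k) hΩ hω hreg hz hE'd hc hcard hj
      rw [← h2]
      refine Finset.sum_congr rfl fun ρ' _ => ?_
      ring) (by
      refine le_trans (Finset.card_le_card_of_injOn (fun ρ' => ρ'.restrictScalars ℂ)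
        (fun ρ' hρ' => ?_) fun ρ1 _ ρ2 _ h12 => AlgHom.restrictScalars_injective ℂ h12) hcon
      have h3 := (Finset.mem_filter.1 (Finset.mem_coe.1 hρ')).2
      refine Finset.mem_coe.2 (Finset.mem_filter.2 ⟨Finsupp.mem_support_iff.2 fun h4 => ?_,
        funext (hT' ρ')⟩)
      exact h3 (by rw [h4, Int.cast_zero, zero_mul])) σ'
  simp only [hσ'] at h1
  rcases mul_eq_zero.1 h1 with h2 | h2
  · exact hσ (Int.cast_eq_zero.1 h2)
  · exact hg ((map_eq_zero σ').1 h2)

end

end Pool.Agent.T6.H17.BC
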