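import Pool.Agent.T6.H17.BC.Main
import Pool.Agent.R882.HT

/-!
Families of zero-cycles with null trace on nondegenerate complete intersections in tori.
-/

set_option autoImplicit false
set_option linter.overlappingInstances false
set_option linter.unusedSectionVars false
set_option linter.unusedDecidableInType false
set_option linter.unusedFintypeInType false
set_option maxHeartbeats 4000000
set_option synthInstance.maxHeartbeats 400000

open FF Module Pool.Agent Pool.Agent.W602.GT
open Pool.Agent.R885 (ev ini gr mn)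
open Pool.Agent.R882.HT (GenusZero Nondegenerate IsTorusPoint InFine)
open Pool.Agent.R882.ZC (NullTrace PulledBack pulledBack_of descend)

namespace Pool.Agent.T6.H17.BC

/-- The Fine interior contains `k` rows of width `M`: the vectors `u + j v` and `u + j v + M (w l)`,
for `j < k` and all `l`, for some `u`. -/
def Rows {m q N : ℕ} (f : Fin q → (Fin m → ℤ) →₀ ℂ) (v : Fin m → ℤ)
    (w : Fin N → Fin m → ℤ) (k M : ℕ) : Prop :=
  ∃ u : Fin m → ℤ, ∀ j < k, InFine f (u + (j : ℤ) • v) ∧
    ∀ l, InFine f (u + (j : ℤ) • v + (M : ℤ) • w l)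

/-- rows give forms -/
theorem level_of_rows {n q N : ℕ} {f : Fin q → (Fin (n + q) → ℤ) →₀ ℂ}
    (hf : Nondegenerate f) {K : Type} [Field K] [Algebra ℂ K] {x : Fin (n + q) → K}
    (hx : IsTorusPoint f x) (hK : Algebra.trdeg ℂ K = (n : ℕ))
    {v : Fin (n + q) → ℤ} {w : Fin N → Fin (n + q) → ℤ} {t : Fin N → K}
    (ht : ∀ l, t l = R885.mono x (w l)) {k M : ℕ} (hk : 1 ≤ k) (h : Rows f v w k M) :
    Level n t (R885.mono x v) k M := by
  classical
  obtain ⟨hx0, hev, hgen⟩ := hx
  obtain ⟨u, hu⟩ := h
  have e : Fin q ⊕ Fin n ≃ Fin (n + q) := Fintype.equivOfCardEq (by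
    rw [Fintype.card_sum, Fintype.card_fin, Fintype.card_fin, Fintype.card_fin, add_comm])
  obtain ⟨Ω, hΩ, hne⟩ := Pool.Agent.R882.LT.exists_twisted_col (w := w) hK hx0 hgen e hev
    (fun v => hf v)
  have htE : t = fun l => R885.mono x (w l) := funext ht
  rw [← htE] at hΩ
  refine ⟨fun D => R885.mono x u * Ω D, ?_, fun Z hZ D0 hD0 =>
    mul_ne_zero (R885.mono_ne hx0 _) (hne Z hZ D0 hD0), ?_⟩
  · obtain ⟨h1, h2⟩ := hu 0 hk
    have h3 := (hΩ M (u + ((0 : ℕ) : ℤ) • v) h1 h2).1
    rw [Nat.cast_zero, zero_smul, add_zero] at h3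
    exact h3
  · intro j hj a ha P hP
    obtain ⟨h1, h2⟩ := hu j hj
    have h3 := (hΩ M _ h1 h2).2 a ha P hP
    have hform : ∀ D : Fin n → Derivation ℂ K K, R885.mono x v ^ j *
        (R885.mono x u * Ω D) = R885.mono x (u + (j : ℤ) • v) * Ω D := by
      intro D
      rw [R885.mono_add hx0, R885.mono_zsmul, zpow_natCast]
      ring
    simp only [hform]
    exact h3

theorem ess_of_point {m q : ℕ} {f : Fin q → (Fin m → ℤ) →₀ ℂ} {K : Type} [Field K]
    [Algebra ℂ K] {x : Fin m → K} (hx : IsTorusPoint f x) : Algebra.EssFiniteType ℂ K := by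
  classical
  rw [← IntermediateField.fg_top_iff, ← hx.2.2]
  exact ⟨Finset.univ.image x, by rw [Finset.coe_image, Finset.coe_univ, Set.image_univ]⟩

section

variable {K Ω : Type} [Field K] [Algebra ℂ K] [Field Ω] [Algebra ℂ Ω] {n : ℕ}

/-- the step in the torus -/
theorem torus_step [IsAlgClosed Ω] (hΩ : Algebra.trdeg ℂ Ω = (n : ℕ))
    {q N : ℕ} {f : Fin q → (Fin (n + q) → ℤ) →₀ ℂ} (hf : Nondegenerate f)
    {x : Fin (n + q) → K} (hx : IsTorusPoint f x) (hK : Algebra.trdeg ℂ K = (n : ℕ))
    {v : Fin (n + q) → ℤ} {w : Fin N → Fin (n + q) → ℤ} {t : Fin N → K}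
    (ht : ∀ l, t l = R885.mono x (w l))
    [FiniteDimensional (IntermediateField.adjoin ℂ (Set.range t)) K]
    (hy : IntermediateField.adjoin (IntermediateField.adjoin ℂ (Set.range t))
      {R885.mono x v} = ⊤)
    {c : (K →ₐ[ℂ] Ω) →₀ ℤ} (hc : NullTrace n c)
    (alt : GenusZero (IntermediateField.adjoin ℂ (Set.range t)) n ∨ (∀ σ, 0 ≤ c σ) ∨
      ∀ F : IntermediateField (IntermediateField.adjoin ℂ (Set.range t)) K,
        Module.finrank (IntermediateField.adjoin ℂ (Set.range t)) F ≠ 2)
    [DecidableEq (Fin N → Ω)]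
    (H : ∀ k, 1 ≤ k → k < Module.finrank (IntermediateField.adjoin ℂ (Set.range t)) K →
      ∃ M, Rows f v w k M ∧
      ((c.support.image fun σ l => σ (t l)).filter fun q =>
        k ≤ (c.support.filter fun ρ => (fun l => ρ (t l)) = q).card).card ≤ M + 1)
    {σ τ : K →ₐ[ℂ] Ω} (h : ∀ l, σ (t l) = τ (t l)) : c σ = c τ := by
  have hess : Algebra.EssFiniteType ℂ K := ess_of_point hx
  refine const_fibres hΩ hK hy hc alt (fun k hk1 hk => ?_) h
  obtain ⟨M, hM, hcard⟩ := H k hk1 hk
  exact ⟨M, level_of_rows hf hx hK ht hk1 hM, hcard⟩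

end

/-- `x` is the generic point of a component, with function field `K`, of the nondegenerate complete
intersection `f l = 0` in a torus, `E = ℂ(t)` for the monomials `t l = x ^ (w l)`, and `K = E(x ^ v)` is a
finite extension of `E`. -/
def IsCover {K : Type} [Field K] [Algebra ℂ K] {m q N : ℕ} (f : Fin q → (Fin m → ℤ) →₀ ℂ)
    (x : Fin m → K) (v : Fin m → ℤ) (w : Fin N → Fin m → ℤ) (E : IntermediateField ℂ K) : Prop :=
  Nondegenerate f ∧ IsTorusPoint f x ∧
    E = IntermediateField.adjoin ℂ (Set.range fun l => R885.mono x (w l)) ∧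
    FiniteDimensional E K ∧ IntermediateField.adjoin E {R885.mono x v} = ⊤

/-- The Fine interior contains `k` rows of width `M` with `s ≤ k (M + 1)`, for all `k`, `1 ≤ k < b`. -/
def HasRows {m q N : ℕ} (f : Fin q → (Fin m → ℤ) →₀ ℂ) (v : Fin m → ℤ)
    (w : Fin N → Fin m → ℤ) (b s : ℕ) : Prop :=
  ∀ k, 1 ≤ k → k < b → ∃ M, s ≤ k * (M + 1) ∧ Rows f v w k M

/-- There is no quadratic extension of `E` in `K`. -/
def NoQuadratic {K : Type} [Field K] [Algebra ℂ K] (E : IntermediateField ℂ K) : Prop :=
  ∀ F : IntermediateField E K, Module.finrank E F ≠ 2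

/-- `K` is the function field of the first variety of a tower of varieties of dimension `n`, for
families of at most `s` points, over a variety with the property `Base`: either `K` has the property
`Base`, or it is the function field of a component of a nondegenerate complete intersection in a torus,
and, for the subfield `E` generated by the monomials `x ^ (w l)`, with `K = E(x ^ v)` of degree `b` over
`E`: the Fine interior contains `k` rows of width `M` with `s ≤ k (M + 1)`, for all `k`, `1 ≤ k < b`;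
`eff` holds, or the geometric genus of the variety with the function field `E` is zero, or there is no
quadratic extension of `E` in `K`; and `E` is the function field of the first variety of a tower for
families of at most `s / b` points. -/
inductive CycleTower (n : ℕ) (Base : ∀ (K : Type) [Field K] [Algebra ℂ K], Prop) (eff : Prop) :
    ∀ (K : Type) [Field K] [Algebra ℂ K], ℕ → Prop
  | base {K : Type} [Field K] [Algebra ℂ K] {s : ℕ} (h : Base K) : CycleTower n Base eff K s
  | cover {K : Type} [Field K] [Algebra ℂ K] {s q N : ℕ} (f : Fin q → (Fin (n + q) → ℤ) →₀ ℂ)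
      (x : Fin (n + q) → K) (v : Fin (n + q) → ℤ) (w : Fin N → Fin (n + q) → ℤ)
      (E : IntermediateField ℂ K) (map : IsCover f x v w E)
      (rows : HasRows f v w (Module.finrank E K) s)
      (sign : eff ∨ GenusZero E n ∨ NoQuadratic E)
      (below : CycleTower n Base eff E (s / Module.finrank E K)) : CycleTower n Base eff K s

section

variable {ι K Ω : Type}

/-- the number of large fibres -/
theorem large_fibres {α β : Type} [DecidableEq β] (s : Finset α) (p : α → β) (k : ℕ) :
    k * ((s.image p).filter fun q => k ≤ (s.filter fun a => p a = q).card).card ≤ s.card := by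
  classical
  rw [Finset.card_eq_sum_card_image p s, mul_comm, ← smul_eq_mul, ← Finset.sum_const]
  refine le_trans (Finset.sum_le_sum (g := fun q => (s.filter fun a => p a = q).card)
    fun q hq => (Finset.mem_filter.1 hq).2) ?_
  exact Finset.sum_le_sum_of_subset (Finset.filter_subset _ _)

end

/-- **Towers in tori.** -/
theorem torus_tower {Ω : Type} [Field Ω] [Algebra ℂ Ω] {n : ℕ}
    {Base : ∀ (K : Type) [Field K] [Algebra ℂ K], Prop} {eff : Prop}
    {K : Type} [Field K] [Algebra ℂ K] {s : ℕ} (h : CycleTower n Base eff K s)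
    [IsAlgClosed Ω] (hΩ : Algebra.trdeg ℂ Ω = (n : ℕ)) : Algebra.trdeg ℂ K = (n : ℕ) →
    ∀ c : (K →ₐ[ℂ] Ω) →₀ ℤ, (eff → ∀ σ, 0 ≤ c σ) → NullTrace n c → c.support.card ≤ s →
      PulledBack Base c := by
  classical
  induction h with
  | @base K i1 i2 s h =>
    intro _ c _ _ _
    exact ⟨K, i1, i2, Algebra.id K, inferInstance, inferInstance, h, fun σ τ hστ => by
      rw [show σ = τ from AlgHom.ext hστ]⟩
  | @cover K _ _ s q N f x v w E map rows sign below ih =>
    intro hK c heff hc hs
    obtain ⟨nondeg, point, hE, fin, prim⟩ := map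
    obtain ⟨t, ht⟩ : ∃ t : Fin N → K, t = fun l => R885.mono x (w l) := ⟨_, rfl⟩
    have mono : ∀ l, t l = R885.mono x (w l) := fun l => by rw [ht]
    rw [← ht] at hE
    subst hE
    have hess : Algebra.EssFiniteType ℂ K := ess_of_point point
    have alt : GenusZero (IntermediateField.adjoin ℂ (Set.range t)) n ∨ (∀ σ, 0 ≤ c σ) ∨
        ∀ F : IntermediateField (IntermediateField.adjoin ℂ (Set.range t)) K,
          Module.finrank (IntermediateField.adjoin ℂ (Set.range t)) F ≠ 2 := by
      rcases sign with h1 | h1 | h1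
      · exact Or.inr (Or.inl (heff h1))
      · exact Or.inl h1
      · exact Or.inr (Or.inr h1)
    have hconst : ∀ σ τ : K →ₐ[ℂ] Ω, (∀ e : IntermediateField.adjoin ℂ (Set.range t),
        σ (algebraMap _ K e) = τ (algebraMap _ K e)) → c σ = c τ := by
      intro σ τ hστ
      refine torus_step hΩ nondeg point hK mono prim hc alt (fun k hk1 hk => ?_) fun l =>
        hστ ⟨t l, IntermediateField.subset_adjoin ℂ _ ⟨l, rfl⟩⟩
      obtain ⟨M, hsM, hM⟩ := rows k hk1 hk
      refine ⟨M, hM, ?_⟩
      have h1 := large_fibres c.support (fun (ρ : K →ₐ[ℂ] Ω) (l : Fin N) => ρ (t l)) k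
      have h2 := le_trans h1 (le_trans hs hsM)
      exact Nat.le_of_mul_le_mul_left h2 hk1
    obtain ⟨c1, hn1, h1, h2, h3⟩ := descend hK (IntermediateField.adjoin ℂ (Set.range t)) hc
      hconst
    have hb : 0 < Module.finrank (IntermediateField.adjoin ℂ (Set.range t)) K :=
      Module.finrank_pos
    refine pulledBack_of _ h1 (ih (Pool.Agent.Y184.NT.trdeg_below (K := K) hK) c1
      (fun he q => ?_) hn1 ?_)
    · obtain ⟨σ, hσ⟩ := h2 q
      rw [hσ]
      exact heff he σ
    · rw [Nat.le_div_iff_mul_le hb, ← h3]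
      exact hs

end Pool.Agent.T6.H17.BC
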